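import Pool.Agent.Helper98.HQ.Spec

/-!
# HQ part AREA1: the area under the fluid path of the first workload
-/

set_option autoImplicit false

open MeasureTheory Filter Topology
open scoped ENNReal NNReal
open Pool.Agent.Helper98.HQ

namespace Pool.Agent.Helper9.HQ.AREA1

theorem lint_ioc (a b : ℝ) (f : ℝ → ℝ) (hab : a ≤ b) (hf : Continuous f)
    (h0 : ∀ x ∈ Set.Ioc a b, 0 ≤ f x) :
    ∫⁻ x in Set.Ioc a b, ENNReal.ofReal (f x) = ENNReal.ofReal (∫ x in a..b, f x) := by
  rw [intervalIntegral.integral_of_le hab]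
  rw [ofReal_integral_eq_lintegral_ofReal]
  · exact (hf.intervalIntegrable a b).1
  · exact (ae_restrict_iff' measurableSet_Ioc).2 (Eventually.of_forall h0)

theorem tri (m D κ B y : ℝ) (hm : 0 < m) (hD : 0 < D) (hκ : 0 < κ) (hB : 0 < B)
    (hrel : m * κ + (m + 1) * D = B) (hy : 0 ≤ y) :
    ENNReal.ofReal (D * y ^ 2 / (2 * κ * B)) ≤
      ∫⁻ x in Set.Ioi (0 : ℝ), ENNReal.ofReal (min (x * D / m) ((y - x * κ) / (m + 1))) := by
  set xs : ℝ := y * m / B with hxs
  set e : ℝ := y / κ with he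
  have hxs0 : 0 ≤ xs := by positivity
  have hm1 : (0 : ℝ) < m + 1 := by linarith
  have hxe : xs ≤ e := by
    rw [hxs, he, div_le_div_iff₀ hB hκ]
    have : m * κ ≤ B := by nlinarith
    nlinarith
  have hdisj : Disjoint (Set.Ioc 0 xs) (Set.Ioc xs e) := by
    rw [Set.disjoint_left]
    intro x h1 h2
    exact absurd h1.2 (not_le.2 h2.1)
  have hsub : Set.Ioc 0 xs ∪ Set.Ioc xs e ⊆ Set.Ioi 0 := by
    intro x hx
    rcases hx with hx | hx
    · exact hx.1
    · exact lt_of_le_of_lt hxs0 hx.1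
  refine le_trans ?_ (lintegral_mono_set hsub)
  rw [lintegral_union measurableSet_Ioc hdisj]
  -- first piece
  have hcmp1 : ∀ x : ℝ, x ≤ xs → x * D / m ≤ (y - x * κ) / (m + 1) := by
    intro x hx
    rw [div_le_div_iff₀ hm hm1]
    have h1 : x * B ≤ y * m := by
      have := mul_le_mul_of_nonneg_right hx hB.le
      rwa [hxs, div_mul_cancel₀ _ hB.ne'] at this
    have : x * B = x * (m * κ + (m + 1) * D) := by rw [hrel]
    nlinarith
  have hcmp2 : ∀ x : ℝ, xs ≤ x → (y - x * κ) / (m + 1) ≤ x * D / m := by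
    intro x hx
    rw [div_le_div_iff₀ hm1 hm]
    have h1 : y * m ≤ x * B := by
      have := mul_le_mul_of_nonneg_right hx hB.le
      rwa [hxs, div_mul_cancel₀ _ hB.ne'] at this
    have : x * B = x * (m * κ + (m + 1) * D) := by rw [hrel]
    nlinarith
  have e1 : ∫⁻ x in Set.Ioc 0 xs, ENNReal.ofReal (min (x * D / m) ((y - x * κ) / (m + 1))) =
      ENNReal.ofReal (D / m * (xs ^ 2 / 2)) := by
    have h1 : ∫⁻ x in Set.Ioc 0 xs, ENNReal.ofReal (min (x * D / m) ((y - x * κ) / (m + 1))) =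
        ∫⁻ x in Set.Ioc 0 xs, ENNReal.ofReal (D / m * x) := by
      refine setLIntegral_congr_fun measurableSet_Ioc ?_
      intro x hx
      simp only
      rw [min_eq_left (hcmp1 x hx.2)]
      congr 1; ring
    rw [h1, lint_ioc 0 xs _ hxs0 (by fun_prop)]
    · congr 1
      rw [intervalIntegral.integral_const_mul, integral_id]
      ring
    · intro x hx
      have := hx.1
      positivity
  have e2 : ∫⁻ x in Set.Ioc xs e, ENNReal.ofReal (min (x * D / m) ((y - x * κ) / (m + 1))) =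
      ENNReal.ofReal ((y * (e - xs) - κ * ((e ^ 2 - xs ^ 2) / 2)) / (m + 1)) := by
    have h1 : ∫⁻ x in Set.Ioc xs e, ENNReal.ofReal (min (x * D / m) ((y - x * κ) / (m + 1))) =
        ∫⁻ x in Set.Ioc xs e, ENNReal.ofReal ((y - κ * x) / (m + 1)) := by
      refine setLIntegral_congr_fun measurableSet_Ioc ?_
      intro x hx
      simp only
      rw [min_eq_right (hcmp2 x hx.1.le)]
      congr 1; ring
    rw [h1, lint_ioc xs e _ hxe (by fun_prop)]
    · congr 1
      rw [intervalIntegral.integral_div, intervalIntegral.integral_sub (by simp)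
        (Continuous.intervalIntegrable (by fun_prop) _ _), intervalIntegral.integral_const_mul,
        integral_id, intervalIntegral.integral_const, smul_eq_mul]
      ring
    · intro x hx
      have h2 : x * κ ≤ y := by
        have := mul_le_mul_of_nonneg_right hx.2 hκ.le
        rwa [he, div_mul_cancel₀ _ hκ.ne'] at this
      have : 0 ≤ y - κ * x := by nlinarith
      positivity
  rw [e1, e2, ← ENNReal.ofReal_add]
  · refine ENNReal.ofReal_le_ofReal (le_of_eq ?_)
    rw [hxs, he]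
    field_simp
    have hB2 : B = m * κ + (m + 1) * D := hrel.symm
    subst hB2
    ring
  · positivity
  · have hexs : 0 ≤ e - xs := by linarith
    have h3 : y = κ * e := by rw [he]; field_simp
    have : y * (e - xs) - κ * ((e ^ 2 - xs ^ 2) / 2) = κ * (e - xs) ^ 2 / 2 := by
      rw [h3]; ring
    rw [this]
    positivity

theorem main : S_AREA1 := by
  intro m ν β hm hin hβ
  haveI := hin.prob
  set A := ∫ u, u.1 ∂ν with hA
  set B := ∫ u, u.2 ∂ν with hB
  set E2 := ∫ u, u.2 ^ 2 ∂ν with hE2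
  have hBpos : 0 < B := hin.Spos
  have hκ : 0 < ((m : ℝ) + 1) * A - B := by
    have := hin.stab
    push_cast at this
    linarith
  by_cases hD : B - m * A ≤ 0
  · have : L1v m A B E2 β = 0 := by
      unfold L1v
      rw [max_eq_right hD]; simp
    rw [this]; simp
  push Not at hD
  have hm0 : (0 : ℝ) < m := by exact_mod_cast hm
  have hmeas : Measurable (fun z : ℝ × (ℕ → ℝ × ℝ) =>
      ENNReal.ofReal (g1 m A B z.1 (β * (z.2 0).2))) := by
    unfold g1
    fun_prop
  rw [lintegral_lintegral_swap (f := fun (x : ℝ) (ω : ℕ → ℝ × ℝ) =>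
      ENNReal.ofReal (g1 m A B x (β * (ω 0).2))) hmeas.aemeasurable]
  have hmap : (Measure.infinitePi fun _ : ℕ => ν).map (fun ω : ℕ → ℝ × ℝ => ω 0) = ν :=
    Measure.infinitePi_map_eval _ 0
  have hnn : ∀ᵐ ω ∂(Measure.infinitePi fun _ : ℕ => ν), 0 ≤ (ω 0).2 := by
    have h1 : ∀ᵐ u ∂((Measure.infinitePi fun _ : ℕ => ν).map (fun ω : ℕ → ℝ × ℝ => ω 0)),
        0 ≤ u.2 := by
      rw [hmap]
      filter_upwards [hin.nn] with u hu using hu.2
    exact ae_of_ae_map (f := fun ω : ℕ → ℝ × ℝ => ω 0) (measurable_pi_apply 0).aemeasurable h1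
  have hstep : ∫⁻ ω, ENNReal.ofReal ((B - m * A) * (β * (ω 0).2) ^ 2 /
      (2 * (((m : ℝ) + 1) * A - B) * B)) ∂(Measure.infinitePi fun _ : ℕ => ν) ≤
      ∫⁻ ω, (∫⁻ x in Set.Ioi (0 : ℝ), ENNReal.ofReal (g1 m A B x (β * (ω 0).2)))
        ∂(Measure.infinitePi fun _ : ℕ => ν) := by
    refine lintegral_mono_ae ?_
    filter_upwards [hnn] with ω hω
    have := tri m (B - m * A) (((m : ℝ) + 1) * A - B) B (β * (ω 0).2) hm0 hD hκ hBpos
      (by ring) (by positivity)
    refine this.trans (le_of_eq ?_)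
    rfl
  refine le_trans (le_of_eq ?_) hstep
  have h2 : ∫⁻ ω, ENNReal.ofReal ((B - m * A) * (β * (ω 0).2) ^ 2 /
      (2 * (((m : ℝ) + 1) * A - B) * B)) ∂(Measure.infinitePi fun _ : ℕ => ν) =
      ∫⁻ u, ENNReal.ofReal ((B - m * A) * (β * u.2) ^ 2 /
      (2 * (((m : ℝ) + 1) * A - B) * B)) ∂ν := by
    conv_rhs => rw [← hmap]
    rw [lintegral_map (by fun_prop) (by fun_prop)]
  rw [h2]
  have h3 : (fun u : ℝ × ℝ => (B - m * A) * (β * u.2) ^ 2 /
      (2 * (((m : ℝ) + 1) * A - B) * B)) = fun u : ℝ × ℝ => ((B - m * A) * β ^ 2 /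
      (2 * (((m : ℝ) + 1) * A - B) * B)) * u.2 ^ 2 := by
    funext u; ring
  rw [show (∫⁻ u, ENNReal.ofReal ((B - m * A) * (β * u.2) ^ 2 /
      (2 * (((m : ℝ) + 1) * A - B) * B)) ∂ν) = ∫⁻ u, ENNReal.ofReal (((B - m * A) * β ^ 2 /
      (2 * (((m : ℝ) + 1) * A - B) * B)) * u.2 ^ 2) ∂ν from by
        refine lintegral_congr fun u => ?_
        congr 1
        exact congrFun h3 u]
  rw [← ofReal_integral_eq_lintegral_ofReal (hin.S2.const_mul _)]
  · congr 1
    rw [integral_const_mul, ← hE2]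
    unfold L1v
    rw [max_eq_left hD.le]
    ring
  · refine Eventually.of_forall fun u => ?_
    have : 0 ≤ (B - m * A) * β ^ 2 / (2 * (((m : ℝ) + 1) * A - B) * B) := by positivity
    exact mul_nonneg this (sq_nonneg _)

end Pool.Agent.Helper9.HQ.AREA1
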