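import Pool.Agent.Helper98.HQ.Spec

/-!
# HQ part KWB: one step preserves admissibility, is monotone and nonexpansive
-/

set_option autoImplicit false

open MeasureTheory Filter Topology
open scoped ENNReal NNReal
open Pool.Agent.Helper98.HQ

namespace Pool.Agent.Helper9.HQ.KWB

theorem sum_ite_le (k : ℕ) (c : ℝ) (hc : 0 ≤ c) :
    ∑ i : Fin k, (if (i : ℕ) = 0 then c else 0) ≤ c := by
  cases k with
  | zero => simpa using hc
  | succ m =>
    rw [Fin.sum_univ_succ]
    simp

theorem main (hS : S_SRT) : S_KWB := by
  intro k w w' s s' t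
  refine ⟨⟨(hS k _ 0).1, ?_⟩, ?_, ?_⟩
  · intro i
    exact le_max_right _ _
  · intro h1 h2
    refine (hS k _ _).2.2.1 ?_
    intro i
    have := h1 i
    refine max_le_max ?_ le_rfl
    split_ifs <;> linarith
  · refine ((hS k _ _).2.2.2.2.2).trans ?_
    have h : ∀ i : Fin k,
        |max (w i + (if (i : ℕ) = 0 then s else 0) - t) 0 -
          max (w' i + (if (i : ℕ) = 0 then s' else 0) - t) 0| ≤
        |w i - w' i| + (if (i : ℕ) = 0 then |s - s'| else 0) := by
      intro i
      refine (abs_max_sub_max_le_abs _ _ _).trans ?_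
      split_ifs with h0
      · have : w i + s - t - (w' i + s' - t) = (w i - w' i) + (s - s') := by ring
        rw [this]
        exact abs_add_le _ _
      · have : w i + 0 - t - (w' i + 0 - t) = (w i - w' i) := by ring
        rw [this]; simp
    refine (Finset.sum_le_sum fun i _ => h i).trans ?_
    rw [Finset.sum_add_distrib]
    have := sum_ite_le k |s - s'| (abs_nonneg _)
    linarith

end Pool.Agent.Helper9.HQ.KWB
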