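import Pool.Agent.Helper98.HQ.Spec

/-!
# HQ part KWM: continuity and measurability
-/

set_option autoImplicit false

open MeasureTheory Filter Topology
open scoped ENNReal NNReal
open Pool.Agent.Helper98.HQ

namespace Pool.Agent.Helper9.HQ.KWM

theorem srt_cont (hS : S_SRT) (k : ℕ) : Continuous (fun x : Fin k → ℝ => srt x) := by
  refine continuous_pi fun i => continuous_iff_continuousAt.2 fun x => ?_
  rw [ContinuousAt, tendsto_iff_dist_tendsto_zero]
  have hc : Continuous (fun y : Fin k → ℝ => ∑ j, |y j - x j|) := by fun_prop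
  have h0 : Tendsto (fun y : Fin k → ℝ => ∑ j, |y j - x j|) (𝓝 x) (𝓝 0) := by
    have := hc.tendsto x
    simpa using this
  refine squeeze_zero (fun _ => dist_nonneg) (fun y => ?_) h0
  rw [Real.dist_eq]
  have h1 := (hS k y x).2.2.2.2.2
  exact (Finset.single_le_sum (f := fun i => |srt y i - srt x i|)
    (fun j _ => abs_nonneg _) (Finset.mem_univ i)).trans h1

theorem kw_cont (hS : S_SRT) (k : ℕ) :
    Continuous (fun x : (Fin k → ℝ) × ℝ × ℝ => kw x.1 x.2.2 x.2.1) := by
  refine (srt_cont hS k).comp ?_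
  refine continuous_pi fun i => ?_
  refine Continuous.max ?_ continuous_const
  split_ifs <;> fun_prop

theorem stp_cont (hS : S_SRT) (k : ℕ) (c : ℝ) :
    Continuous (fun x : (Fin k → ℝ) × ℝ × ℝ => stp c x.1 x.2) := by
  have : (fun x : (Fin k → ℝ) × ℝ × ℝ => stp c x.1 x.2) =
      (fun x : (Fin k → ℝ) × ℝ × ℝ => kw x.1 x.2.2 x.2.1) ∘
        (fun x : (Fin k → ℝ) × ℝ × ℝ => (x.1, max x.2.1 0, c * max x.2.2 0)) := rfl
  rw [this]
  refine (kw_cont hS k).comp ?_
  fun_prop

theorem op_meas (hS : S_SRT) (k : ℕ) (ν : Measure (ℝ × ℝ)) (c : ℝ) (h : (Fin k → ℝ) → ℝ≥0∞)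
    [IsProbabilityMeasure ν] (hh : Measurable h) : Measurable (op ν c h) := by
  have h1 : Measurable (fun x : (Fin k → ℝ) × ℝ × ℝ => h (stp c x.1 x.2)) :=
    hh.comp (stp_cont hS k c).measurable
  exact h1.lintegral_prod_right'

theorem opp_meas (hS : S_SRT) (k : ℕ) (ν : Measure (ℝ × ℝ))
    (h : (Fin k → ℝ) × (Fin k → ℝ) → ℝ≥0∞)
    [IsProbabilityMeasure ν] (hh : Measurable h) : Measurable (opp ν h) := by
  have h1 : Measurable (fun x : ((Fin k → ℝ) × (Fin k → ℝ)) × ℝ × ℝ =>
      h (stp 1 x.1.1 x.2, stp 1 x.1.2 x.2)) := by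
    refine hh.comp ?_
    refine Measurable.prodMk ?_ ?_
    · exact (stp_cont hS k 1).measurable.comp
        (g := fun x : (Fin k → ℝ) × ℝ × ℝ => stp 1 x.1 x.2)
        (f := fun x : ((Fin k → ℝ) × (Fin k → ℝ)) × ℝ × ℝ => (x.1.1, x.2)) (by fun_prop)
    · exact (stp_cont hS k 1).measurable.comp
        (g := fun x : (Fin k → ℝ) × ℝ × ℝ => stp 1 x.1 x.2)
        (f := fun x : ((Fin k → ℝ) × (Fin k → ℝ)) × ℝ × ℝ => (x.1.2, x.2)) (by fun_prop)
  exact h1.lintegral_prod_right'

theorem neq_meas (k : ℕ) : Measurable (neq (k := k)) := by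
  unfold neq
  exact Measurable.ite (measurableSet_eq_fun measurable_fst measurable_snd)
    measurable_const measurable_const

theorem main (hS : S_SRT) : S_KWM := by
  refine ⟨fun k => kw_cont hS k, fun k c => (stp_cont hS k c).measurable, ?_, ?_, ?_⟩
  · intro k ν c h hν hh n
    induction n with
    | zero => exact hh
    | succ n ih =>
      rw [Function.iterate_succ_apply']
      exact op_meas hS k ν c _ ih
  · intro k ν hν n
    induction n with
    | zero => exact neq_meas k
    | succ n ih =>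
      rw [Function.iterate_succ_apply']
      exact opp_meas hS k ν _ ih
  · intro k c n
    induction n with
    | zero => exact measurable_fst
    | succ n ih =>
      have h1 : Measurable (fun x : (Fin k → ℝ) × (ℕ → ℝ × ℝ) =>
          (pth c x.1 x.2 n, x.2 n)) := by
        refine Measurable.prodMk ih ?_
        exact (measurable_pi_apply n).comp measurable_snd
      exact (stp_cont hS k (c n)).measurable.comp h1

end Pool.Agent.Helper9.HQ.KWM
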